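import Pool.Agent.helper62.RP.Spec

/-!
# Row rp:DRT (MP_07c750): darts
-/

set_option autoImplicit false

open Polynomial Filter
open Pool.Agent.QU

namespace Pool.Agent.RP

theorem DRT_linv_linv (l : Ltr) : linv (linv l) = l := by simp [linv]

theorem DRT_linv_ne (l : Ltr) : l ≠ linv l := by
  intro h
  have h2 := congrArg Prod.snd h
  simp [linv] at h2

theorem DRT_con1 {n : ℕ} [NeZero n] {w : Fin n → Ltr} {c : Fin n → Fin n} (hC : Con w c) {i j : Fin n}
    (h1 : c i = c j) (h2 : w i = w j) : c (i + 1) = c (j + 1) := by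
  have h := hC i j
  unfold pr at h
  rw [h2] at h
  by_cases hb : (w j).2 = true
  · simp only [hb, if_true, forall_true_left] at h
    exact h.2 h1
  · simp only [hb, if_false, Bool.false_eq_true, forall_true_left] at h
    exact h.1 h1

theorem DRT_con2 {n : ℕ} [NeZero n] {w : Fin n → Ltr} {c : Fin n → Fin n} (hC : Con w c) {i j : Fin n}
    (h1 : c i = c (j + 1)) (h2 : w i = linv (w j)) : c (i + 1) = c j := by
  have h := hC i j
  unfold pr at h
  rw [h2] at h
  by_cases hb : (w j).2 = true
  · simp only [hb, linv, Bool.not_true, Bool.false_eq_true, if_true, if_false, forall_true_left] at h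
    exact h.1 h1
  · simp only [hb, linv, if_false, Bool.false_eq_true, forall_true_left] at h
    simp only [Bool.not_eq_true] at hb
    simp only [hb, Bool.not_false, if_true, forall_true_left] at h
    exact h.2 h1

theorem DRT_nsmul {n : ℕ} [NeZero n] (a : Fin n) : ∃ d : ℕ, a = d • (1 : Fin n) := by
  have h : ∀ m : ℕ, ∀ hm : m < n, ∃ d : ℕ, (⟨m, hm⟩ : Fin n) = d • (1 : Fin n) := by
    intro m
    induction m with
    | zero =>
      intro hm
      refine ⟨0, ?_⟩
      rw [zero_nsmul]
      rfl
    | succ m ih =>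
      intro hm
      obtain ⟨d, hd⟩ := ih (by omega)
      refine ⟨d + 1, ?_⟩
      rw [add_nsmul, one_nsmul, ← hd]
      apply Fin.ext
      rw [Fin.val_add]
      have h1 : ((1 : Fin n) : ℕ) = 1 % n := Fin.val_one' n
      rw [h1, Nat.add_mod_mod, Nat.mod_eq_of_lt hm]
  exact h a.1 a.2

/-- the number of darts -/
theorem DRT_count {n : ℕ} [NeZero n] (w : Fin n → Ltr) (c : Fin n → Fin n) (hw : CR w) :
    nv c ≤ nex w c 0 + nex w c 1 ∧ (nv c = nex w c 0 + nex w c 1 →
      ∀ i j, (c i = c j → w j = w i ∨ w j = linv (w (i - 1))) ∧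
        (c i = c (j + 1) → linv (w j) = w i ∨ linv (w j) = linv (w (i - 1)))) := by
  classical
  set D : Finset (Fin n × Ltr) := Finset.univ.image (fun i => (c i, w i)) ∪
    Finset.univ.image (fun i => (c (i + 1), linv (w i))) with hD
  have hD1 : ∀ i, (c i, w i) ∈ D := fun i =>
    Finset.mem_union_left _ (Finset.mem_image_of_mem (fun i => (c i, w i)) (Finset.mem_univ i))
  have hD2 : ∀ i, (c (i + 1), linv (w i)) ∈ D := fun i =>
    Finset.mem_union_right _ (Finset.mem_image_of_mem (fun i => (c (i + 1), linv (w i))) (Finset.mem_univ i))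
  have hE : (edg w c).card = nex w c 0 + nex w c 1 := by
    rw [Finset.card_eq_sum_card_fiberwise (f := fun e : Fin 2 × Fin n × Fin n => e.1) (t := Finset.univ)
      (fun _ _ => Finset.mem_coe.2 (Finset.mem_univ _)), Fin.sum_univ_two]
    rfl
  have hDE : D ⊆ (edg w c).image (fun e => (e.2.2, (e.1, true))) ∪
      (edg w c).image (fun e => (e.2.1, (e.1, false))) := by
    have key : ∀ i, ((c i, w i) ∈ (edg w c).image (fun e => (e.2.2, (e.1, true))) ∪
        (edg w c).image (fun e => (e.2.1, (e.1, false)))) ∧ ((c (i + 1), linv (w i)) ∈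
        (edg w c).image (fun e => (e.2.2, (e.1, true))) ∪ (edg w c).image (fun e => (e.2.1, (e.1, false)))) := by
      intro i
      have hm : pr w c i ∈ edg w c := Finset.mem_image_of_mem (pr w c) (Finset.mem_univ i)
      have m1 := Finset.mem_image_of_mem (fun e : Fin 2 × Fin n × Fin n => ((e.2.2, (e.1, true)) : Fin n × Ltr)) hm
      have m2 := Finset.mem_image_of_mem (fun e : Fin 2 × Fin n × Fin n => ((e.2.1, (e.1, false)) : Fin n × Ltr)) hm
      rcases hb : w i with ⟨x, b⟩
      cases b
      · have e1 : pr w c i = (x, c i, c (i + 1)) := by simp [pr, hb]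
        rw [e1] at m1 m2
        exact ⟨Finset.mem_union_right _ m2, Finset.mem_union_left _ m1⟩
      · have e1 : pr w c i = (x, c (i + 1), c i) := by simp [pr, hb]
        rw [e1] at m1 m2
        exact ⟨Finset.mem_union_left _ m1, Finset.mem_union_right _ m2⟩
    intro d hd
    rcases Finset.mem_union.1 hd with h | h
    · obtain ⟨i, _, rfl⟩ := Finset.mem_image.1 h
      exact (key i).1
    · obtain ⟨i, _, rfl⟩ := Finset.mem_image.1 h
      exact (key i).2
  have hDc : D.card ≤ 2 * (nex w c 0 + nex w c 1) := by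
    calc D.card ≤ _ := Finset.card_le_card hDE
      _ ≤ _ := Finset.card_union_le _ _
      _ ≤ (edg w c).card + (edg w c).card := add_le_add Finset.card_image_le Finset.card_image_le
      _ = 2 * (nex w c 0 + nex w c 1) := by rw [hE]; ring
  -- the two darts at a vertex
  have hsub : ∀ i, ({(c i, w i), (c i, linv (w (i - 1)))} : Finset (Fin n × Ltr)) ⊆
      D.filter (fun d => d.1 = c i) := by
    intro i d hd
    rw [Finset.mem_insert, Finset.mem_singleton] at hd
    rcases hd with rfl | rfl
    · exact Finset.mem_filter.2 ⟨hD1 i, rfl⟩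
    · have := hD2 (i - 1)
      rw [sub_add_cancel] at this
      exact Finset.mem_filter.2 ⟨this, rfl⟩
  have hne : ∀ i, (c i, w i) ≠ (c i, linv (w (i - 1))) := by
    intro i h
    have h1 : w i = linv (w (i - 1)) := congrArg Prod.snd h
    have h2 := hw (i - 1)
    rw [sub_add_cancel] at h2
    apply h2
    rw [h1, DRT_linv_linv]
  have hcard2 : ∀ i, ({(c i, w i), (c i, linv (w (i - 1)))} : Finset (Fin n × Ltr)).card = 2 := fun i =>
    Finset.card_pair (hne i)
  have hsum : D.card = ∑ v ∈ Finset.univ.image c, (D.filter (fun d => d.1 = v)).card := by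
    refine Finset.card_eq_sum_card_fiberwise (fun d hd => ?_)
    rcases Finset.mem_union.1 (Finset.mem_coe.1 hd) with h | h
    · obtain ⟨i, _, rfl⟩ := Finset.mem_image.1 h
      exact Finset.mem_coe.2 (Finset.mem_image_of_mem c (Finset.mem_univ _))
    · obtain ⟨i, _, rfl⟩ := Finset.mem_image.1 h
      exact Finset.mem_coe.2 (Finset.mem_image_of_mem c (Finset.mem_univ _))
  have hge : ∀ v ∈ Finset.univ.image c, 2 ≤ (D.filter (fun d => d.1 = v)).card := by
    intro v hv
    obtain ⟨i, _, rfl⟩ := Finset.mem_image.1 hv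
    rw [← hcard2 i]
    exact Finset.card_le_card (hsub i)
  have hge2 : 2 * nv c ≤ D.card := by
    rw [hsum, nv]
    calc 2 * (Finset.univ.image c).card = ∑ v ∈ Finset.univ.image c, 2 := by
          rw [Finset.sum_const, smul_eq_mul, mul_comm]
      _ ≤ _ := Finset.sum_le_sum hge
  refine ⟨by omega, fun heq => ?_⟩
  have hle : ∀ v ∈ Finset.univ.image c, (D.filter (fun d => d.1 = v)).card ≤ 2 := by
    intro v hv
    by_contra hlt
    rw [not_le] at hlt
    have : ∑ v ∈ Finset.univ.image c, 2 < ∑ v ∈ Finset.univ.image c, (D.filter (fun d => d.1 = v)).card :=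
      Finset.sum_lt_sum hge ⟨v, hv, hlt⟩
    rw [← hsum, Finset.sum_const, smul_eq_mul] at this
    have h3 : (Finset.univ.image c).card = nv c := rfl
    omega
  have heqD : ∀ i, ({(c i, w i), (c i, linv (w (i - 1)))} : Finset (Fin n × Ltr)) =
      D.filter (fun d => d.1 = c i) := by
    intro i
    refine Finset.eq_of_subset_of_card_le (hsub i) ?_
    rw [hcard2 i]
    exact hle _ (Finset.mem_image_of_mem c (Finset.mem_univ i))
  intro i j
  refine ⟨fun h => ?_, fun h => ?_⟩
  · have h1 : (c j, w j) ∈ D.filter (fun d => d.1 = c i) := Finset.mem_filter.2 ⟨hD1 j, h.symm⟩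
    rw [← heqD i, Finset.mem_insert, Finset.mem_singleton] at h1
    rcases h1 with h1 | h1
    · exact Or.inl (congrArg Prod.snd h1)
    · exact Or.inr (congrArg Prod.snd h1)
  · have h1 : (c (j + 1), linv (w j)) ∈ D.filter (fun d => d.1 = c i) := Finset.mem_filter.2 ⟨hD2 j, h.symm⟩
    rw [← heqD i, Finset.mem_insert, Finset.mem_singleton] at h1
    rcases h1 with h1 | h1
    · exact Or.inl (congrArg Prod.snd h1)
    · exact Or.inr (congrArg Prod.snd h1)

/-- **DRT**: darts. -/
theorem DRT : DRT_stmt := by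
  intro n _ w c hw hC
  obtain ⟨h1, h2⟩ := DRT_count w c hw
  refine ⟨h1, fun heq => ?_⟩
  have h3 := h2 heq
  intro i j hij
  have hcr : ∀ k, w k ≠ linv (w (k - 1)) := by
    intro k hk
    have h4 := hw (k - 1)
    rw [sub_add_cancel] at h4
    apply h4
    rw [hk, DRT_linv_linv]
  by_cases hwij : w i = w j
  · exact ⟨hwij, DRT_con1 hC hij hwij⟩
  exfalso
  -- the induction
  have key : ∀ k : ℕ, c (i + k • (1 : Fin n)) = c (j - k • (1 : Fin n)) ∧
      w (i + k • (1 : Fin n)) = linv (w (j - k • (1 : Fin n) - 1)) := by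
    intro k
    induction k with
    | zero =>
      rw [zero_nsmul, add_zero, sub_zero]
      refine ⟨hij, ?_⟩
      rcases (h3 j i).1 hij.symm with h | h
      · exact absurd h hwij
      · exact h
    | succ k ih =>
      obtain ⟨ih1, ih2⟩ := ih
      have e1 : i + (k + 1) • (1 : Fin n) = (i + k • (1 : Fin n)) + 1 := by
        rw [add_nsmul, one_nsmul, add_assoc]
      have e2 : j - (k + 1) • (1 : Fin n) = (j - k • (1 : Fin n)) - 1 := by
        rw [add_nsmul, one_nsmul, sub_sub]
      rw [e1, e2]
      set a : Fin n := i + k • (1 : Fin n) with ha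
      set b : Fin n := j - k • (1 : Fin n) with hb
      have f1 : c (a + 1) = c (b - 1) := by
        refine DRT_con2 hC ?_ ih2
        rw [sub_add_cancel]
        exact ih1
      refine ⟨f1, ?_⟩
      rcases (h3 (b - 1) (a + 1)).1 f1.symm with h | h
      · exfalso
        have h5 := hcr (a + 1)
        rw [add_sub_cancel_right] at h5
        apply h5
        rw [ih2, DRT_linv_linv]
        exact h
      · exact h
  obtain ⟨d, hd⟩ := DRT_nsmul (j - i)
  have hj : j = i + d • (1 : Fin n) := by
    rw [← hd, add_sub_cancel]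
  rcases Nat.even_or_odd' d with ⟨k, hk | hk⟩
  · -- `i + k = j - k`
    have e : i + k • (1 : Fin n) = j - k • (1 : Fin n) := by
      rw [hj, hk, two_mul, add_nsmul, eq_sub_iff_add_eq, add_assoc]
    have h6 := (key k).2
    rw [← e] at h6
    exact hcr _ h6
  · have e : i + k • (1 : Fin n) = j - k • (1 : Fin n) - 1 := by
      rw [hj, hk, two_mul, add_nsmul, add_nsmul, one_nsmul, eq_sub_iff_add_eq, eq_sub_iff_add_eq]
      abel
    have h6 := (key k).2
    rw [← e] at h6
    exact DRT_linv_ne _ h6

end Pool.Agent.RP
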